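import Pool.Agent.H89.FC.Defs
import Pool.Agent.H37.CF.Targets

/-!
# The fourth moment of the complete family of self-dual Hecke `L`-functions: the algebraic part

From the second moment of the twisted sums over forms (`Pool.Agent.H89.FC.T_TMm`) to the second
moment of the `L`-functions (`T_TMFc`), with the existence of the `L`-functions, the rapidly
convergent series, and the number of the characters.
-/

set_option autoImplicit false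

open MeasureTheory Set Filter NumberField
open scoped Real nonZeroDivisors Matrix MatrixGroups

namespace Pool.Agent.H95.FC

open Pool.Agent.H31.CN Pool.Agent.H89.FM Pool.Agent.H61.FM Pool.Agent.H89.FC

/-! ### Definitions: forms and lines -/

/-- the value at `v` is prime to `f` -/
def Uv (f : ℕ) (Q : QF) (v : ℤ × ℤ) : Prop := IsCoprime (val Q v) (f : ℤ)

/-- the bilinear form of `Q` -/
def bl (Q : QF) (V W : ℤ × ℤ) : ℤ :=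
  2 * Q.1 * V.1 * W.1 + Q.2.1 * (V.1 * W.2 + V.2 * W.1) + 2 * Q.2.2 * V.2 * W.2

/-- the form of the lattice generated by `V` and `f W` -/
def fl (f : ℕ) (Q : QF) (V W : ℤ × ℤ) : QF := (val Q V, f * bl Q V W, (f : ℤ) ^ 2 * val Q W)

/-- the map `(x, y) ↦ x V + f y W` -/
def io (f : ℕ) (V W : ℤ × ℤ) : ℤ × ℤ →+ ℤ × ℤ where
  toFun v := (v.1 * V.1 + f * v.2 * W.1, v.1 * V.2 + f * v.2 * W.2)
  map_zero' := by simp
  map_add' := by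
    intro a b
    ext <;> simp <;> ring

/-- representatives of the lines modulo `f` on which the values of `Q` are prime to `f` -/
structure LT (f : ℕ) (Q : QF) (T : Finset (ℤ × ℤ)) (W : ℤ × ℤ → ℤ × ℤ) : Prop where
  one : ∀ V ∈ T, det V (W V) = 1
  un : ∀ V ∈ T, Uv f Q V
  ex : ∀ u, Uv f Q u → ∃ V ∈ T, (f : ℤ) ∣ det V u
  uni : ∀ V ∈ T, ∀ V' ∈ T, (f : ℤ) ∣ det V V' → V = V'

open Classical in
/-- the sublattices of index `n` of the line of `V` on which `Q` is divisible by `n` -/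
noncomputable def Tn (n f : ℕ) (Q : QF) (V : ℤ × ℤ) : Finset (AddSubgroup (ℤ × ℤ)) :=
  (Ls (n * f)).filter fun L => L ≤ Lw f V ∧ Dv n L Q

/-! ### Definitions: ideals and characters -/

section

variable (K : Type) [Field K] [NumberField K]

/-- the number of the vector `v` -/
abbrev lv (α β : 𝓞 K) (v : ℤ × ℤ) : 𝓞 K := (v.1 : 𝓞 K) * α + (v.2 : 𝓞 K) * β

variable {K} in
/-- the ideals `b v` of the vectors `v` of the ideal `I` -/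
structure VB (I : (Ideal (𝓞 K))⁰) (α β : 𝓞 K) (Q : QF) (b : ℤ × ℤ → (Ideal (𝓞 K))⁰) : Prop where
  spn : ∀ v, v ≠ 0 → Ideal.span {lv K α β v} = (b v : Ideal (𝓞 K)) * I
  cls : ∀ v, v ≠ 0 → ClassGroup.mk0 (b v) = (ClassGroup.mk0 I)⁻¹
  nrm : ∀ v, v ≠ 0 → (nm (b v) : ℤ) = val Q v
  sur : ∀ J : (Ideal (𝓞 K))⁰, ClassGroup.mk0 J = (ClassGroup.mk0 I)⁻¹ → ∃ v, v ≠ 0 ∧ b v = J
  fib : ∀ v, v ≠ 0 → {v' : ℤ × ℤ | v' ≠ 0 ∧ b v' = b v}.ncard = un K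

variable {K} in
/-- the value of the character on the line of `v` -/
noncomputable def rr (m : ℤ) (ψ : Ideal (𝓞 K) → ℂ) (b : ℤ × ℤ → (Ideal (𝓞 K))⁰) (Q : QF)
    (v : ℤ × ℤ) : ℂ := ψ (b v) * an (zx Q) (zy Q) v ^ (-m)

variable {K} in
/-- the lines of `V` and `V'` differ by a unit -/
def UP (α β : 𝓞 K) (f : ℕ) (V V' : ℤ × ℤ) : Prop :=
  ∃ (u : (𝓞 K)ˣ) (w : ℤ × ℤ), lv K α β w = (u : 𝓞 K) * lv K α β V ∧ (f : ℤ) ∣ det V' w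

variable {K} in
/-- the data of the field `K` and the conductor `f` -/
structure DF (D f : ℕ) (R : RS K D) (b : ClassGroup (𝓞 K) → ℤ × ℤ → (Ideal (𝓞 K))⁰)
    (T : ClassGroup (𝓞 K) → Finset (ℤ × ℤ)) (W : ClassGroup (𝓞 K) → ℤ × ℤ → ℤ × ℤ) :
    Prop where
  vb : ∀ c, VB (R.I c) (R.α c) (R.β c) (R.Q c) (b c)
  lt : ∀ c, LT f (R.Q c) (T c) (W c)

end

/-! ### What chapter II provides -/

open Classical in
/-- (EZAx) the completed Epstein zeta function of weight `2 m`: holomorphy, and the series -/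
def T_EZAx : Prop :=
  ∀ (m : ℤ) (n : ℕ) (L : AddSubgroup (ℤ × ℤ)) (x y : ℝ), 1 ≤ n → L.index = n → 0 < y →
    (Differentiable ℂ fun s : ℂ => Em m s n L x y) ∧ (m ≠ 0 → Em m 0 n L x y = 0) ∧
    ∀ s : ℂ, 1 < s.re → ∃ a : ℂ, HasSum (fun v : ℤ × ℤ =>
      if v ∈ L ∧ v ≠ 0 then an x y v ^ m * (((qz x y v / n : ℝ)) : ℂ) ^ (-s) else 0) a ∧
      Em m s n L x y = gM m.natAbs s * a

open Classical in
/-- (ROTx) the completed Epstein zeta function of weight `2 m`: the rotated series -/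
def T_ROTx : Prop :=
  ∀ (m : ℤ) (τ s : ℂ) (n : ℕ) (L : AddSubgroup (ℤ × ℤ)) (x y : ℝ), 1 ≤ n → L.index = n →
    ‖τ‖ = 1 → 0 < τ.re → 0 < y →
    HasSum (fun v : ℤ × ℤ => if v ∈ L ∧ v ≠ 0 then
      an x y v ^ m * Kmc m.natAbs τ s ((qz x y v / n : ℝ) : ℂ) else 0) (Em m s n L x y)

/-! ### Lines modulo `f` -/

/-- (TRN) vectors proportional modulo `f`. -/
def T_TRN : Prop :=
  (∀ (f : ℕ) (Q : QF) (u v w : ℤ × ℤ), Uv f Q v → (f : ℤ) ∣ det u v → (f : ℤ) ∣ det v w →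
    (f : ℤ) ∣ det u w) ∧
  (∀ (f : ℕ) (Q : QF) (v w : ℤ × ℤ), Uv f Q v → (f : ℤ) ∣ det v w →
    ∃ (t : ℤ) (u : ℤ × ℤ), w = t • v + (f : ℤ) • u) ∧
  ∀ (f g : ℕ) (Q : QF) (v : ℤ × ℤ), g ∣ f → Uv f Q v → Uv g Q v

/-- (LTX) representatives of the lines exist. -/
def T_LTX : Prop :=
  ∀ (f : ℕ) (Q : QF), 1 ≤ f → ∃ (T : Finset (ℤ × ℤ)) (W : ℤ × ℤ → ℤ × ℤ), LT f Q T W

/-- (TCB) the number of the lines. -/
def T_TCB : Prop :=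
  ∀ ε : ℝ, 0 < ε → ∃ C : ℝ, 0 < C ∧ ∀ (f : ℕ) (Q : QF) (T : Finset (ℤ × ℤ))
    (W : ℤ × ℤ → ℤ × ℤ), 1 ≤ f → LT f Q T W → (T.card : ℝ) ≤ C * (f : ℝ) ^ (1 + ε)

/-- (FLF) the form of a line. -/
def T_FLF : Prop :=
  ∀ (f : ℕ) (Q : QF) (V W : ℤ × ℤ), 1 ≤ f → det V W = 1 →
    (∀ v, val (fl f Q V W) v = val Q (io f V W v)) ∧
    dsc (fl f Q V W) = (f : ℤ) ^ 2 * dsc Q ∧
    (∀ D : ℕ, 0 < D → Q ∈ FD D → fl f Q V W ∈ FD (D * f ^ 2)) ∧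
    Function.Injective (io f V W) ∧
    ∀ u, (f : ℤ) ∣ det V u ↔ ∃ v, io f V W v = u

/-- (FRA) the angular factor and the metric of the form of a line. -/
def T_FRA : Prop :=
  ∀ (f : ℕ) (Q : QF) (V W : ℤ × ℤ), 1 ≤ f → det V W = 1 → 0 < Q.1 → 0 < dsc Q →
    0 < zy Q ∧ 0 < zy (fl f Q V W) ∧ (∀ v, v ≠ 0 → ‖an (zx Q) (zy Q) v‖ = 1) ∧
    (∀ v, an (zx Q) (zy Q) (io f V W v) =
      an (zx Q) (zy Q) V * an (zx (fl f Q V W)) (zy (fl f Q V W)) v) ∧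
    ∀ v, qz (zx (fl f Q V W)) (zy (fl f Q V W)) v = qz (zx Q) (zy Q) (io f V W v) / f

/-- (FRM) the Epstein zeta function of the form of a line. -/
def T_FRM : Prop :=
  ∀ (m : ℤ) (s : ℂ) (n f : ℕ) (Q : QF) (V W : ℤ × ℤ) (L : AddSubgroup (ℤ × ℤ)),
    1 ≤ n → 1 ≤ f → det V W = 1 → 0 < Q.1 → 0 < dsc Q → Em m s n L (zx (fl f Q V W)) (zy (fl f Q V W)) =
      an (zx Q) (zy Q) V ^ (-m) * Em m s (n * f) (L.map (io f V W)) (zx Q) (zy Q)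

open Classical in
/-- (IOS) sums over a line. -/
def T_IOS : Prop :=
  ∀ (m : ℤ) (f : ℕ) (Q : QF) (V W : ℤ × ℤ) (h : ℝ → ℂ) (a : ℂ), 1 ≤ f → det V W = 1 →
    0 < Q.1 → 0 < dsc Q →
    HasSum (fun v : ℤ × ℤ => if v ≠ 0 then an (zx (fl f Q V W)) (zy (fl f Q V W)) v ^ m *
      h (val (fl f Q V W) v) else 0) a →
    HasSum (fun u : ℤ × ℤ => if (f : ℤ) ∣ det V u ∧ u ≠ 0 then an (zx Q) (zy Q) u ^ m *
      h (val Q u) else 0) (an (zx Q) (zy Q) V ^ m * a)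

open Classical in
/-- (TNB) the sublattices of a line. -/
def T_TNB : Prop :=
  ∀ (n f : ℕ) (Q : QF) (V W : ℤ × ℤ) (Φ : AddSubgroup (ℤ × ℤ) → ℂ),
    1 ≤ n → 1 ≤ f → det V W = 1 →
    ∑ L ∈ (Ls n).filter (fun L => Dv n L (fl f Q V W)), Φ (L.map (io f V W)) =
      ∑ L ∈ Tn n f Q V, Φ L

open Classical in
/-- (TWN) the sublattices of a line, `n` prime to `f`. -/
def T_TWN : Prop :=
  ∀ (n f : ℕ) (Q : QF) (V W : ℤ × ℤ) (Φ : AddSubgroup (ℤ × ℤ) → ℂ),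
    1 ≤ n → 1 ≤ f → Nat.Coprime n f → det V W = 1 →
    ∑ L ∈ Tn n f Q V, Φ L = ∑ L ∈ (Ls n).filter (fun L => Dv n L Q), Φ (L ⊓ Lw f V)

/-- (VNT) the sublattices of a line, `n` not prime to `f`. -/
def T_VNT : Prop :=
  ∀ (n f p : ℕ) (Q : QF) (V V' W W' : ℤ × ℤ), 1 ≤ f → p.Prime → p ∣ n → p ∣ f → Uv f Q V →
    Uv f Q V' → det V W = 1 → det V' W' = 1 → ((f / p : ℕ) : ℤ) ∣ det V V' →
    Tn n f Q V = Tn n f Q V'

/-! ### Characters on lines -/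

/-- (RSS) representatives of the ideal classes for a given embedding. -/
def T_RSS : Prop :=
  ∀ (K : Type) [Field K] [NumberField K] (D : ℕ) (σ : K →+* ℂ), IQ K D →
    ∃ R : RS K D, R.σ = σ

/-- (DFX) the data exist. -/
def T_DFX : Prop :=
  ∀ (K : Type) [Field K] [NumberField K] (D f : ℕ) (R : RS K D), IQ K D → 1 ≤ f →
    0 < un K ∧ ∃ b T W, DF D f R b T W

/-- (ANT) the infinity type and the angular factor. -/
def T_ANT : Prop :=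
  ∀ (K : Type) [Field K] [NumberField K] (σ : K →+* ℂ) (D : ℕ) (I : (Ideal (𝓞 K))⁰)
    (α β : 𝓞 K) (Q : QF), 0 < D → Q ∈ FD D → OB K σ I α β Q →
    (∀ v, ty K σ (lv K α β v) = ty K σ α * an (zx Q) (zy Q) v) ∧ ‖ty K σ α‖ = 1

/-- (PAR) proportional vectors. -/
def T_PAR : Prop :=
  ∀ (K : Type) [Field K] [NumberField K] (σ : K →+* ℂ) (f : ℕ) (I : (Ideal (𝓞 K))⁰)
    (α β : 𝓞 K) (Q : QF) (b : ℤ × ℤ → (Ideal (𝓞 K))⁰), 1 ≤ f → OB K σ I α β Q → VB I α β Q b →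
    ∀ v v' : ℤ × ℤ, v ≠ 0 → v' ≠ 0 → Uv f Q v → Uv f Q v' → (f : ℤ) ∣ det v v' →
    ∃ (a : 𝓞 K) (n : ℕ), 1 ≤ n ∧ Pool.Agent.H95.CF.Rat K f f a ∧
      Pool.Agent.H95.CF.Rat K f f (n : 𝓞 K) ∧ a * lv K α β v = (n : 𝓞 K) * lv K α β v' ∧
      Ideal.span {a} * (b v : Ideal (𝓞 K)) = Ideal.span {(n : 𝓞 K)} * (b v' : Ideal (𝓞 K))

/-- (RHO) the value of a character on a line. -/
def T_RHO : Prop :=
  ∀ (K : Type) [Field K] [NumberField K] (σ : K →+* ℂ) (D f : ℕ) (m : ℤ) (ψ : Ideal (𝓞 K) → ℂ)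
    (I : (Ideal (𝓞 K))⁰) (α β : 𝓞 K) (Q : QF) (b : ℤ × ℤ → (Ideal (𝓞 K))⁰), 0 < D → Q ∈ FD D →
    OB K σ I α β Q → VB I α β Q b → RCh K σ f m ψ →
    ∀ v v' : ℤ × ℤ, v ≠ 0 → v' ≠ 0 → Uv f Q v → Uv f Q v' → (f : ℤ) ∣ det v v' →
      rr m ψ b Q v = rr m ψ b Q v'

open Classical in
/-- (PRI) primitivity. -/
def T_PRI : Prop :=
  ∀ (K : Type) [Field K] [NumberField K] (σ : K →+* ℂ) (D f : ℕ) (m : ℤ) (ψ : Ideal (𝓞 K) → ℂ)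
    (I : (Ideal (𝓞 K))⁰) (α β : 𝓞 K) (Q : QF) (b : ℤ × ℤ → (Ideal (𝓞 K))⁰)
    (T : Finset (ℤ × ℤ)) (W : ℤ × ℤ → ℤ × ℤ), 0 < D → Q ∈ FD D →
    OB K σ I α β Q → VB I α β Q b → LT f Q T W → RCh K σ f m ψ →
    ∀ (p : ℕ) (R : ℤ × ℤ → Prop), p.Prime → p ∣ f →
      (∀ V ∈ T, ∀ V' ∈ T, ((f / p : ℕ) : ℤ) ∣ det V V' → (R V ↔ R V')) →
      ∑ V ∈ T, (if R V then rr m ψ b Q V else 0) = 0

open Classical in
/-- (NCU) the sum over the lines which contain `u`. -/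
def T_NCU : Prop :=
  ∀ (K : Type) [Field K] [NumberField K] (σ : K →+* ℂ) (D f : ℕ) (m : ℤ) (ψ : Ideal (𝓞 K) → ℂ)
    (I : (Ideal (𝓞 K))⁰) (α β : 𝓞 K) (Q : QF) (b : ℤ × ℤ → (Ideal (𝓞 K))⁰)
    (T : Finset (ℤ × ℤ)) (W : ℤ × ℤ → ℤ × ℤ), 0 < D → Q ∈ FD D →
    OB K σ I α β Q → VB I α β Q b → LT f Q T W → RCh K σ f m ψ → ∀ u : ℤ × ℤ, u ≠ 0 →
      ∑ V ∈ T, (if (f : ℤ) ∣ det V u then rr m ψ b Q V else 0) =
        if Uv f Q u then rr m ψ b Q u else 0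

open Classical in
/-- (SUM) sums over the lines and sums over all vectors. -/
def T_SUM : Prop :=
  ∀ (K : Type) [Field K] [NumberField K] (σ : K →+* ℂ) (D f : ℕ) (m : ℤ) (ψ : Ideal (𝓞 K) → ℂ)
    (I : (Ideal (𝓞 K))⁰) (α β : 𝓞 K) (Q : QF) (b : ℤ × ℤ → (Ideal (𝓞 K))⁰)
    (T : Finset (ℤ × ℤ)) (W : ℤ × ℤ → ℤ × ℤ), 0 < D → Q ∈ FD D →
    OB K σ I α β Q → VB I α β Q b → LT f Q T W → RCh K σ f m ψ →
    ∀ (L : AddSubgroup (ℤ × ℤ)) (h : ℝ → ℂ) (a : ℤ × ℤ → ℂ),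
      (∀ V ∈ T, HasSum (fun u : ℤ × ℤ => if u ∈ L ∧ (f : ℤ) ∣ det V u ∧ u ≠ 0 then
        an (zx Q) (zy Q) u ^ m * h (val Q u) else 0) (a V)) →
      HasSum (fun u : ℤ × ℤ => if u ∈ L ∧ u ≠ 0 then ψ (b u) * h (val Q u) else 0)
        (∑ V ∈ T, ψ (b V) * an (zx Q) (zy Q) V ^ (-m) * a V)

/-- (VAN) the vanishing of the terms which are not prime to the conductor. -/
def T_VAN : Prop :=
  ∀ (K : Type) [Field K] [NumberField K] (σ : K →+* ℂ) (D f : ℕ) (m : ℤ) (ψ : Ideal (𝓞 K) → ℂ)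
    (I : (Ideal (𝓞 K))⁰) (α β : 𝓞 K) (Q : QF) (b : ℤ × ℤ → (Ideal (𝓞 K))⁰)
    (T : Finset (ℤ × ℤ)) (W : ℤ × ℤ → ℤ × ℤ), 0 < D → Q ∈ FD D →
    OB K σ I α β Q → VB I α β Q b → LT f Q T W → RCh K σ f m ψ →
    ∀ (n p : ℕ) (E : AddSubgroup (ℤ × ℤ) → ℂ), p.Prime → p ∣ n → p ∣ f →
      ∑ V ∈ T, rr m ψ b Q V * ∑ L ∈ Tn n f Q V, E L = 0

/-! ### The `L`-functions and the Epstein zeta functions -/

open Classical in
/-- (TWSc) sums over the vectors of a product of ideals are sums over the ideals of a class. -/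
def T_TWSc : Prop :=
  ∀ (K : Type) [Field K] [NumberField K] (D : ℕ) (σ : K →+* ℂ), IQ K D →
    ∀ (I P : (Ideal (𝓞 K))⁰) (α β : 𝓞 K) (Q : QF) (b : ℤ × ℤ → (Ideal (𝓞 K))⁰)
    (ψ : Ideal (𝓞 K) → ℂ), OB K σ I α β Q → VB I α β Q b →
    (∀ A B, ψ (A * B) = ψ A * ψ B) → ∀ (h : ℝ → ℂ) (a : ℂ),
      HasSum (fun v : ℤ × ℤ => if v ∈ lt K α β ((P : Ideal (𝓞 K)) * I) ∧ v ≠ 0 then
        ψ (b v) * h ((val Q v : ℝ) / nm P) else 0) a →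
      HasSum (fun J : (Ideal (𝓞 K))⁰ =>
        if ClassGroup.mk0 J = (ClassGroup.mk0 I * ClassGroup.mk0 P)⁻¹ then
          ψ P * ψ J * h (nm J) else 0) (a / un K)

open Classical in
/-- (LC1) the coefficients. -/
def T_LC1 : Prop :=
  ∀ (K : Type) [Field K] [NumberField K] (σ : K →+* ℂ) (f : ℕ) (m : ℤ) (ψ : Ideal (𝓞 K) → ℂ),
    RCh K σ f m ψ → lc ψ 1 = 1 ∧ (∀ n : ℕ, ¬ Nat.Coprime n f → lc ψ n = 0) ∧
    ∀ Q : QF, (Ls 1).filter (fun L => Dv 1 L Q) = {⊤}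

open Classical in
/-- the sum over the classes and the lines -/
noncomputable def EE {K : Type} [Field K] [NumberField K] {D : ℕ} (f : ℕ) (R : RS K D)
    (b : ClassGroup (𝓞 K) → ℤ × ℤ → (Ideal (𝓞 K))⁰) (T : ClassGroup (𝓞 K) → Finset (ℤ × ℤ))
    (W : ClassGroup (𝓞 K) → ℤ × ℤ → ℤ × ℤ) (m : ℤ) (ψ : Ideal (𝓞 K) → ℂ) (n : ℕ) (s : ℂ) : ℂ :=
  (un K : ℂ)⁻¹ * ∑ c, ∑ V ∈ T c, ψ (b c V) *
    ∑ L ∈ (Ls n).filter (fun L => Dv n L (fl f (R.Q c) V (W c V))),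
      Em m s n L (zx (fl f (R.Q c) V (W c V))) (zy (fl f (R.Q c) V (W c V)))

/-- (LF1c) the twisted `L`-function in terms of the forms, `Re s > 1`. -/
def T_LF1c : Prop :=
  ∀ (K : Type) [Field K] [NumberField K] (D f : ℕ) (m : ℤ), IQ K D → ∀ (R : RS K D)
    (b : ClassGroup (𝓞 K) → ℤ × ℤ → (Ideal (𝓞 K))⁰) (T : ClassGroup (𝓞 K) → Finset (ℤ × ℤ))
    (W : ClassGroup (𝓞 K) → ℤ × ℤ → ℤ × ℤ) (ψ : Ideal (𝓞 K) → ℂ) (F : ℂ → ℂ),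
    DF D f R b T W → RCh K R.σ f m ψ → IsL ψ F → ∀ n : ℕ, Squarefree n → ∀ s : ℂ, 1 < s.re →
      lc ψ n * (gM m.natAbs s * ((f : ℂ) ^ 2 * D) ^ (s / 2) * F s) = EE f R b T W m ψ n s

/-- (LF2c) the twisted `L`-function in terms of the forms. -/
def T_LF2c : Prop :=
  ∀ (K : Type) [Field K] [NumberField K] (D f : ℕ) (m : ℤ), IQ K D → ∀ (R : RS K D)
    (b : ClassGroup (𝓞 K) → ℤ × ℤ → (Ideal (𝓞 K))⁰) (T : ClassGroup (𝓞 K) → Finset (ℤ × ℤ))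
    (W : ClassGroup (𝓞 K) → ℤ × ℤ → ℤ × ℤ) (ψ : Ideal (𝓞 K) → ℂ) (F : ℂ → ℂ),
    DF D f R b T W → RCh K R.σ f m ψ → IsL ψ F → ∀ n : ℕ, Squarefree n → ∀ s : ℂ, 0 < s.re →
      s ≠ 1 → lc ψ n * (gM m.natAbs s * ((f : ℂ) ^ 2 * D) ^ (s / 2) * F s) =
        EE f R b T W m ψ n s

/-! ### Equivalent forms, classes, numbers of characters -/

/-- (HOM) lines with equivalent forms differ by a unit. -/
def T_HOM : Prop :=
  ∀ (K : Type) [Field K] [NumberField K] (D f : ℕ), IQ K D → 1 ≤ f → ∀ (R : RS K D)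
    (b : ClassGroup (𝓞 K) → ℤ × ℤ → (Ideal (𝓞 K))⁰),
    (∀ c, VB (R.I c) (R.α c) (R.β c) (R.Q c) (b c)) →
    ∀ (c c' : ClassGroup (𝓞 K)) (V V' W W' : ℤ × ℤ) (g : SL(2, ℤ)), det V W = 1 →
      det V' W' = 1 → Uv f (R.Q c) V → Uv f (R.Q c') V' →
      act (fl f (R.Q c) V W) g = fl f (R.Q c') V' W' → c = c' ∧ UP (R.α c) (R.β c) f V V'

/-- (FBR) lines with the same class differ by a unit. -/
def T_FBR : Prop :=
  ∀ (K : Type) [Field K] [NumberField K] (D f : ℕ), IQ K D → 1 ≤ f → ∀ (R : RS K D)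
    (b : ClassGroup (𝓞 K) → ℤ × ℤ → (Ideal (𝓞 K))⁰),
    (∀ c, VB (R.I c) (R.α c) (R.β c) (R.Q c) (b c)) →
    ∀ (G : Type) [CommGroup G] (cl : Ideal (𝓞 K) → G), Pool.Agent.H95.CF.RG K f G cl →
    ∀ (c c' : ClassGroup (𝓞 K)) (V V' : ℤ × ℤ), V ≠ 0 → V' ≠ 0 →
      Uv f (R.Q c) V → Uv f (R.Q c') V' → cl (b c V) = cl (b c' V') →
      c = c' ∧ UP (R.α c) (R.β c) f V V'

/-- (UNB) the number of the units. -/
def T_UNB : Prop :=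
  ∀ (K : Type) [Field K] [NumberField K] (D : ℕ), IQ K D → un K ≤ 10

open Classical in
/-- (CNT) the number of the lines which differ from a given line by a unit. -/
def T_CNT : Prop :=
  ∀ (K : Type) [Field K] [NumberField K] (σ : K →+* ℂ) (D f : ℕ) (I : (Ideal (𝓞 K))⁰)
    (α β : 𝓞 K) (Q : QF) (b : ℤ × ℤ → (Ideal (𝓞 K))⁰) (T : Finset (ℤ × ℤ))
    (W : ℤ × ℤ → ℤ × ℤ), IQ K D → OB K σ I α β Q → VB I α β Q b → LT f Q T W →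
    ∀ V ∈ T, (T.filter (fun V' => UP α β f V V')).card ≤ 10

/-- (GSU) the number of the classes and the number of the lines. -/
def T_GSU : Prop :=
  ∀ (K : Type) [Field K] [NumberField K] (D f : ℕ), IQ K D → 1 ≤ f → ∀ (R : RS K D)
    (b : ClassGroup (𝓞 K) → ℤ × ℤ → (Ideal (𝓞 K))⁰) (T : ClassGroup (𝓞 K) → Finset (ℤ × ℤ))
    (W : ClassGroup (𝓞 K) → ℤ × ℤ → ℤ × ℤ), DF D f R b T W →
    ∀ (G : Type) [CommGroup G] [Finite G] (cl : Ideal (𝓞 K) → G),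
      Pool.Agent.H95.CF.RG K f G cl → Nat.card G ≤ ∑ c, (T c).card

/-- (GCB) the number of the classes. -/
def T_GCB : Prop :=
  ∀ ε : ℝ, 0 < ε → ∃ C : ℝ, 0 < C ∧ ∀ (K : Type) [Field K] [NumberField K] (D f : ℕ)
    (G : Type) [CommGroup G] [Finite G] (cl : Ideal (𝓞 K) → G), IQ K D → 1 ≤ f →
    Pool.Agent.H95.CF.RG K f G cl →
    (Nat.card G : ℝ) ≤ C * ((D : ℝ) * (f : ℝ) ^ 2) ^ (1 / 2 + ε)

/-- (CHX) two characters of the same conductor and weight differ by a character of the group. -/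
def T_CHX : Prop :=
  ∀ (K : Type) [Field K] [NumberField K] (σ : K →+* ℂ) (f : ℕ) (m : ℤ)
    (ψ₀ ψ : Ideal (𝓞 K) → ℂ) (G : Type) [CommGroup G] (cl : Ideal (𝓞 K) → G),
    Pool.Agent.H95.CF.RG K f G cl → RCh K σ f m ψ₀ → RCh K σ f m ψ →
    ∃ φ : G →* ℂˣ, ∀ I, Pool.Agent.H95.CF.Pr K f I → ψ I = ψ₀ I * ((φ (cl I) : ℂˣ) : ℂ)

/-- (PVFc) the twisted second moment for one field, conductor and weight. -/
def T_PVFc : Prop :=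
  ∀ (K : Type) [Field K] [NumberField K] (D f : ℕ) (m : ℤ), IQ K D → 1 ≤ f → ∀ (R : RS K D)
    (b : ClassGroup (𝓞 K) → ℤ × ℤ → (Ideal (𝓞 K))⁰) (T : ClassGroup (𝓞 K) → Finset (ℤ × ℤ))
    (W : ClassGroup (𝓞 K) → ℤ × ℤ → ℤ × ℤ), DF D f R b T W →
    ∀ (G : Type) [CommGroup G] [Finite G] (cl : Ideal (𝓞 K) → G),
      Pool.Agent.H95.CF.RG K f G cl → ∀ (Ψ : Finset (Ideal (𝓞 K) → ℂ))
      (F : (Ideal (𝓞 K) → ℂ) → ℂ → ℂ), (∀ ψ ∈ Ψ, RCh K R.σ f m ψ ∧ IsL ψ (F ψ)) →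
      ∀ (s : ℂ) (N : ℕ) (α : ℕ → ℂ), |s.re - 1 / 2| ≤ 1 / 8 →
      ∑ ψ ∈ Ψ, ‖∑ n ∈ Sq N, α n * lc ψ n‖ ^ 2 * ‖F ψ s‖ ^ 2 *
        (‖gM m.natAbs s‖ ^ 2 * ((D : ℝ) * (f : ℝ) ^ 2) ^ s.re) ≤
        10 * Nat.card G * ∑ c, ∑ V ∈ T c, ‖Bm m s α N (fl f (R.Q c) V (W c V))‖ ^ 2

/-- (FDU) the discriminant and the conductor are determined by the level. -/
def T_FDU : Prop :=
  ∀ (K K' : Type) [Field K] [NumberField K] [Field K'] [NumberField K'] (D D' f f' : ℕ),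
    IQ K D → IQ K' D' → 1 ≤ f → 1 ≤ f' → D * f ^ 2 = D' * f' ^ 2 → D = D' ∧ f = f'

/-- (EQA) equivalence of forms. -/
def T_EQA : Prop :=
  (∀ Q : QF, act Q 1 = Q) ∧ (∀ (Q : QF) (g h : SL(2, ℤ)), act (act Q g) h = act Q (g * h)) ∧
  ∀ (Q : QF) (g : SL(2, ℤ)), dsc (act Q g) = dsc Q

/-- (SPL) a set with small classes is a union of few sets of representatives. -/
def T_SPL : Prop :=
  ∀ (Ω : Type) [Finite Ω] (r : Ω → Ω → Prop) (N : ℕ), Equivalence r →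
    (∀ ω, {ω' | r ω ω'}.ncard ≤ N) → ∃ col : Ω → Fin N, ∀ ω ω', r ω ω' → col ω = col ω' → ω = ω'

end Pool.Agent.H95.FC
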