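import Pool.Agent.H95.FC.Targets
import Pool.Agent.H61.FM.OBG

/-!
# Row AFDU of the board `fmx_modules`: the level determines the discriminant and the conductor
-/

set_option autoImplicit false

open MeasureTheory Set Filter NumberField
open scoped Real nonZeroDivisors Matrix MatrixGroups

namespace Pool.Agent.H95.FC

open Pool.Agent.H31.CN Pool.Agent.H89.FM Pool.Agent.H61.FM Pool.Agent.H89.FC

/-- a quadratic field with a root of `- D` -/
theorem equiv_of_root (K : Type) [Field K] [NumberField K] (hr : Module.finrank ℚ K = 2)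
    (D : ℕ) (hD : 0 < D) (δ : K) (h : δ ^ 2 = -(D : K)) :
    Nonempty (AdjoinRoot (Polynomial.X ^ 2 + Polynomial.C (D : ℚ)) ≃ₐ[ℚ] K) := by
  obtain ⟨p, hp⟩ : ∃ p : Polynomial ℚ, p = Polynomial.X ^ 2 + Polynomial.C (D : ℚ) := ⟨_, rfl⟩
  rw [← hp]
  have hdeg : p.natDegree = 2 := by
    rw [hp]
    exact Polynomial.natDegree_X_pow_add_C
  have hirr : Irreducible p := by
    refine Polynomial.irreducible_of_degree_le_three_of_not_isRoot ?_ ?_
    · rw [hdeg]
      simp
    · intro x hx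
      rw [hp, Polynomial.IsRoot.def, Polynomial.eval_add, Polynomial.eval_pow, Polynomial.eval_X,
        Polynomial.eval_C] at hx
      have h1 : (0 : ℚ) < D := by exact_mod_cast hD
      have h2 := sq_nonneg x
      linarith
  have hfact : Fact (Irreducible p) := ⟨hirr⟩
  have hroot : Polynomial.eval₂ (((Algebra.ofId ℚ K : ℚ →ₐ[ℚ] K) : ℚ →+* K)) δ p = 0 := by
    rw [hp, Polynomial.eval₂_add, Polynomial.eval₂_pow, Polynomial.eval₂_X, Polynomial.eval₂_C, h]
    simp
  let e : AdjoinRoot p →ₐ[ℚ] K := AdjoinRoot.liftAlgHom p (Algebra.ofId ℚ K) δ hroot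
  have hinj : Function.Injective e := (e : AdjoinRoot p →+* K).injective
  have hfr : Module.finrank ℚ (AdjoinRoot p) = 2 := by
    rw [(AdjoinRoot.powerBasis hirr.ne_zero).finrank, AdjoinRoot.powerBasis_dim, hdeg]
  have hfd : FiniteDimensional ℚ (AdjoinRoot p) :=
    (AdjoinRoot.powerBasis hirr.ne_zero).finite
  have hsurj : Function.Surjective e := by
    have h1 := LinearMap.injective_iff_surjective_of_finrank_eq_finrank (K := ℚ)
      (V := AdjoinRoot p) (V₂ := K) (by rw [hfr, hr]) (f := e.toLinearMap)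
    exact h1.1 hinj
  exact ⟨AlgEquiv.ofBijective e ⟨hinj, hsurj⟩⟩

/-- an imaginary quadratic field of discriminant `- D` contains a root of `- D` -/
theorem exists_root (K : Type) [Field K] [NumberField K] (D : ℕ) (h : IQ K D) :
    ∃ δ : K, δ ^ 2 = -(D : K) := by
  obtain ⟨σ⟩ : Nonempty (K →+* ℂ) := inferInstance
  obtain ⟨α, β, Q, hQ, hOB⟩ := pf_OBG K D σ h ⊤ top_ne_bot
  have h1 := hOB.nrm (1, 0)
  have h2 := hOB.nrm (0, 1)
  have h3 := hOB.nrm (1, 1)
  have hα : (α : K) ≠ 0 := by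
    intro h0
    have h4 : α = 0 := by exact_mod_cast h0
    have h5 := hOB.inj (1, 0) (by simp [h4])
    simp at h5
  have hN : (Ideal.absNorm (⊤ : Ideal (𝓞 K)) : ℝ) = 1 := by simp
  rw [hN, one_mul] at h1 h2 h3
  have e1 : (((((1, 0) : ℤ × ℤ).1 : ℤ) : 𝓞 K) * α + ((((1, 0) : ℤ × ℤ).2 : ℤ) : 𝓞 K) * β) = α := by
    simp
  have e2 : (((((0, 1) : ℤ × ℤ).1 : ℤ) : 𝓞 K) * α + ((((0, 1) : ℤ × ℤ).2 : ℤ) : 𝓞 K) * β) = β := by
    simp
  have e3 : (((((1, 1) : ℤ × ℤ).1 : ℤ) : 𝓞 K) * α + ((((1, 1) : ℤ × ℤ).2 : ℤ) : 𝓞 K) * β) =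
      α + β := by
    simp
  rw [e1] at h1
  rw [e2] at h2
  rw [e3] at h3
  have hv1 : val Q (1, 0) = Q.1 := by simp [val]
  have hv2 : val Q (0, 1) = Q.2.2 := by simp [val]
  have hv3 : val Q (1, 1) = Q.1 + Q.2.1 + Q.2.2 := by simp [val]
  rw [hv1] at h1
  rw [hv2] at h2
  rw [hv3] at h3
  have hds := hQ.2
  obtain ⟨a, b, c⟩ := Q
  simp only at h1 h2 h3
  unfold dsc at hds
  simp only at hds
  have hsum : σ (((α + β : 𝓞 K)) : K) = σ (α : K) + σ (β : K) := by
    rw [← map_add]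
    rfl
  rw [hsum, Complex.normSq_add, h1, h2] at h3
  have hre : (σ (α : K) * (starRingEnd ℂ) (σ (β : K))).re = (b : ℝ) / 2 := by
    push_cast at h3
    linarith
  obtain ⟨W, hW⟩ : ∃ W : ℂ, W = (starRingEnd ℂ) (σ (α : K)) * σ (β : K) := ⟨_, rfl⟩
  have hWre : W.re = (b : ℝ) / 2 := by
    rw [← hre, hW]
    simp only [Complex.mul_re, Complex.conj_re, Complex.conj_im]
    ring
  have hWn : W.re ^ 2 + W.im ^ 2 = (a : ℝ) * c := by
    have h4 : Complex.normSq W = (a : ℝ) * c := by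
      rw [hW, Complex.normSq_mul, Complex.normSq_conj, h1, h2]
    rw [← h4, Complex.normSq_apply]
    ring
  have hD : (4 : ℝ) * W.im ^ 2 = D := by
    rw [hWre] at hWn
    have h5 : ((4 * a * c - b ^ 2 : ℤ) : ℝ) = ((D : ℤ) : ℝ) := by exact_mod_cast hds
    push_cast at h5
    nlinarith
  refine ⟨2 * a * (β : K) / (α : K) - b, ?_⟩
  apply σ.injective
  have hσα : σ (α : K) ≠ 0 := (map_ne_zero σ).2 hα
  have hnα : (a : ℂ) = σ (α : K) * (starRingEnd ℂ) (σ (α : K)) := by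
    rw [Complex.mul_conj, h1]
    push_cast
    rfl
  have key : σ (2 * a * (β : K) / (α : K) - b) = 2 * W - b := by
    rw [map_sub, map_div₀, map_mul, map_mul, map_ofNat, map_intCast, map_intCast, hnα, hW]
    field_simp
  have h6 : (2 * W - b : ℂ) = ((2 * W.im : ℝ) : ℂ) * Complex.I := by
    apply Complex.ext
    · simp [hWre]
      ring
    · simp
  rw [map_pow, key, h6, mul_pow, Complex.I_sq, map_neg, map_natCast, ← Complex.ofReal_pow]
  have h7 : (2 * W.im) ^ 2 = (D : ℝ) := by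
    rw [← hD]
    ring
  rw [h7]
  push_cast
  ring

theorem pf_FDU : Pool.Agent.H95.FC.T_FDU := by
  intro K K' _ _ _ _ D D' f f' h h' hf hf' hl
  obtain ⟨δ, hδ⟩ := exists_root K D h
  obtain ⟨δ', hδ'⟩ := exists_root K' D' h'
  have hD := h.pos
  have hroot : (((f' : K') / (f : K')) * δ') ^ 2 = -(D : K') := by
    have hf0 : (f : K') ≠ 0 := by exact_mod_cast (by omega : f ≠ 0)
    have h2 : (D : K') * (f : K') ^ 2 = (D' : K') * (f' : K') ^ 2 := by exact_mod_cast hl
    rw [mul_pow, hδ', div_pow]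
    field_simp
    linear_combination h2
  obtain ⟨e⟩ := equiv_of_root K h.rk D hD δ hδ
  obtain ⟨e'⟩ := equiv_of_root K' h'.rk D hD _ hroot
  have hd := NumberField.discr_eq_discr_of_algEquiv K (e.symm.trans e')
  rw [h.dis, h'.dis] at hd
  have hDD : D = D' := by omega
  refine ⟨hDD, ?_⟩
  subst hDD
  have h3 : f ^ 2 = f' ^ 2 := Nat.eq_of_mul_eq_mul_left hD hl
  exact (Nat.pow_left_injective (n := 2) (by norm_num)) h3

end Pool.Agent.H95.FC

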