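import Pool.Agent.H95.FC.Targets
import Pool.Agent.H50.CN.ACT

/-!
# (FLF) the form of a line
-/

set_option autoImplicit false

open MeasureTheory Set Filter NumberField
open scoped Real nonZeroDivisors Matrix MatrixGroups

namespace Pool.Agent.H95.FC

open Pool.Agent.H31.CN Pool.Agent.H89.FM Pool.Agent.H61.FM Pool.Agent.H89.FC

theorem io_fst (f : ℕ) (V W v : ℤ × ℤ) : (io f V W v).1 = v.1 * V.1 + f * v.2 * W.1 := rfl

theorem io_snd (f : ℕ) (V W v : ℤ × ℤ) : (io f V W v).2 = v.1 * V.2 + f * v.2 * W.2 := rfl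

theorem pf_FLF : T_FLF := by
  intro f Q V W hf hdet
  have hdet' : V.1 * W.2 - V.2 * W.1 = 1 := by
    have := hdet
    unfold Pool.Agent.H89.FM.det at this
    linarith
  have hf0 : (f : ℤ) ≠ 0 := by exact_mod_cast (by omega : f ≠ 0)
  have h1 : ∀ v, val (fl f Q V W) v = val Q (io f V W v) := by
    intro v
    unfold val fl bl
    rw [io_fst, io_snd]
    simp only [val]
    ring
  have h2 : dsc (fl f Q V W) = (f : ℤ) ^ 2 * dsc Q := by
    have h : dsc (fl f Q V W) = (f : ℤ) ^ 2 * dsc Q * (V.1 * W.2 - V.2 * W.1) ^ 2 := by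
      unfold dsc fl bl val
      ring
    rw [h, hdet']
    ring
  have hd1 : ∀ v, Pool.Agent.H89.FM.det V (io f V W v) = f * v.2 := by
    intro v
    unfold Pool.Agent.H89.FM.det
    rw [io_fst, io_snd]
    linear_combination ((f : ℤ) * v.2) * hdet'
  have hd2 : ∀ v, Pool.Agent.H89.FM.det (io f V W v) W = v.1 := by
    intro v
    unfold Pool.Agent.H89.FM.det
    rw [io_fst, io_snd]
    linear_combination v.1 * hdet'
  refine ⟨h1, h2, ?_, ?_, ?_⟩
  · intro D hD hQ
    have h3 := (Pool.Agent.H50.CN.pf_ACT Q 1 1 V).2.2.2.2.2 D hD hQ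
    have hV : V ≠ 0 := by
      rintro rfl
      simp at hdet'
    have h4 : 0 < val Q V := h3.2 hV
    refine ⟨h4, ?_⟩
    rw [h2, hQ.2]
    push_cast
    ring
  · rw [injective_iff_map_eq_zero]
    intro v hv
    have h3 := hd1 v
    have h4 := hd2 v
    rw [hv] at h3 h4
    have h5 : (f : ℤ) * v.2 = 0 := by
      rw [← h3]
      simp [Pool.Agent.H89.FM.det]
    have h6 : v.1 = 0 := by
      rw [← h4]
      simp [Pool.Agent.H89.FM.det]
    ext
    · exact h6
    · exact (mul_eq_zero.mp h5).resolve_left hf0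
  · intro u
    constructor
    · rintro ⟨y, hy⟩
      refine ⟨(Pool.Agent.H89.FM.det u W, y), ?_⟩
      have h3 : V.1 * u.2 - V.2 * u.1 = f * y := by
        have := hy
        unfold Pool.Agent.H89.FM.det at this
        linarith
      ext
      · rw [io_fst]
        unfold Pool.Agent.H89.FM.det
        linear_combination (u.1) * hdet' - W.1 * h3
      · rw [io_snd]
        unfold Pool.Agent.H89.FM.det
        linear_combination (u.2) * hdet' - W.2 * h3
    · rintro ⟨v, rfl⟩
      rw [hd1]
      exact dvd_mul_right _ _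

end Pool.Agent.H95.FC
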