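import Pool.Agent.H95.FC.Targets

/-!
# (PVFc) the twisted second moment for one field, conductor and weight
-/

set_option autoImplicit false

open MeasureTheory Set Filter NumberField
open scoped Real nonZeroDivisors Matrix MatrixGroups

namespace Pool.Agent.H95.FC

open Pool.Agent.H31.CN Pool.Agent.H89.FM Pool.Agent.H61.FM Pool.Agent.H89.FC

theorem pf_PVFc (hLF2 : T_LF2c) (hPVL : T_PVL) (hCHX : T_CHX) (hFBR : T_FBR) (hCNT : T_CNT)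
    (hPRN : Pool.Agent.H95.CF.T_PRN) : T_PVFc := by
  classical
  intro K _ _ D f m hIQ hf R b T W hDF G _ _ cl hRG Ψ F hΨ s N α hs
  have : Fintype G := Fintype.ofFinite G
  have hs' := abs_le.mp hs
  have hs0 : 0 < s.re := by linarith [hs'.1]
  have hs1 : s ≠ 1 := by
    rintro rfl
    have := hs'.2
    rw [Complex.one_re] at this
    norm_num at this
  have hD : (0 : ℝ) < D := by exact_mod_cast hIQ.pos
  have hf0 : (0 : ℝ) < f := by exact_mod_cast hf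
  have hDf : (0 : ℝ) < (D : ℝ) * (f : ℝ) ^ 2 := by positivity
  set P : Finset (Σ _ : ClassGroup (𝓞 K), ℤ × ℤ) := Finset.univ.sigma T with hP
  set B : (Σ _ : ClassGroup (𝓞 K), ℤ × ℤ) → ℂ := fun x =>
    Bm m s α N (fl f (R.Q x.1) x.2 (W x.1 x.2)) with hB
  have hsig : ∀ g : ClassGroup (𝓞 K) → ℤ × ℤ → ℝ, ∑ c, ∑ V ∈ T c, g c V =
      ∑ x ∈ P, g x.1 x.2 := by
    intro g
    rw [hP, Finset.sum_sigma]
  have hsigC : ∀ g : ClassGroup (𝓞 K) → ℤ × ℤ → ℂ, ∑ c, ∑ V ∈ T c, g c V =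
      ∑ x ∈ P, g x.1 x.2 := by
    intro g
    rw [hP, Finset.sum_sigma]
  have key : ∀ ψ ∈ Ψ, (∑ n ∈ Sq N, α n * lc ψ n) *
      (gM m.natAbs s * ((f : ℂ) ^ 2 * D) ^ (s / 2) * F ψ s) =
      (un K : ℂ)⁻¹ * ∑ x ∈ P, ψ (b x.1 x.2) * B x := by
    intro ψ hψ
    rw [Finset.sum_mul]
    have h1 : ∀ n ∈ Sq N, α n * lc ψ n * (gM m.natAbs s * ((f : ℂ) ^ 2 * D) ^ (s / 2) * F ψ s) =
        (un K : ℂ)⁻¹ * ∑ x ∈ P, ψ (b x.1 x.2) * (α n *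
          ∑ L ∈ (Ls n).filter (fun L => Dv n L (fl f (R.Q x.1) x.2 (W x.1 x.2))),
            Em m s n L (zx (fl f (R.Q x.1) x.2 (W x.1 x.2)))
              (zy (fl f (R.Q x.1) x.2 (W x.1 x.2)))) := by
      intro n hn
      have hsq : Squarefree n := (Finset.mem_filter.mp hn).2
      rw [mul_assoc, hLF2 K D f m hIQ R b T W ψ (F ψ) hDF (hΨ ψ hψ).1 (hΨ ψ hψ).2 n hsq s hs0 hs1]
      unfold EE
      rw [hsigC (fun c V => ψ (b c V) * ∑ L ∈ (Ls n).filter (fun L => Dv n L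
        (fl f (R.Q c) V (W c V))), Em m s n L (zx (fl f (R.Q c) V (W c V)))
          (zy (fl f (R.Q c) V (W c V)))), Finset.mul_sum, Finset.mul_sum, Finset.mul_sum]
      refine Finset.sum_congr rfl fun x _ => ?_
      ring
    rw [Finset.sum_congr rfl h1, ← Finset.mul_sum, Finset.sum_comm]
    congr 1
    refine Finset.sum_congr rfl fun x _ => ?_
    rw [← Finset.mul_sum]
    rfl
  have hnD : ‖((f : ℂ) ^ 2 * D) ^ (s / 2)‖ ^ 2 = ((D : ℝ) * (f : ℝ) ^ 2) ^ s.re := by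
    have h1 : (f : ℂ) ^ 2 * D = (((D : ℝ) * (f : ℝ) ^ 2 : ℝ) : ℂ) := by push_cast; ring
    rw [h1, Complex.norm_cpow_eq_rpow_re_of_pos hDf, ← Real.rpow_natCast, ← Real.rpow_mul hDf.le]
    congr 1
    have : (s / 2).re = s.re / 2 := by
      rw [show s / 2 = s / ((2 : ℝ) : ℂ) by push_cast; rfl, Complex.div_ofReal_re]
    rw [this]
    push_cast
    ring
  have hw : ‖(un K : ℂ)⁻¹‖ ^ 2 ≤ 1 := by
    rw [norm_inv, Complex.norm_natCast]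
    rcases Nat.eq_zero_or_pos (un K) with h | h
    · rw [h]
      simp
    · have h3 : (1 : ℝ) ≤ un K := by exact_mod_cast h
      exact pow_le_one₀ (by positivity) (inv_le_one_of_one_le₀ h3)
  have h2 : ∀ ψ ∈ Ψ, ‖∑ n ∈ Sq N, α n * lc ψ n‖ ^ 2 * ‖F ψ s‖ ^ 2 *
      (‖gM m.natAbs s‖ ^ 2 * ((D : ℝ) * (f : ℝ) ^ 2) ^ s.re) ≤
      ‖∑ x ∈ P, ψ (b x.1 x.2) * B x‖ ^ 2 := by
    intro ψ hψ
    calc ‖∑ n ∈ Sq N, α n * lc ψ n‖ ^ 2 * ‖F ψ s‖ ^ 2 *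
        (‖gM m.natAbs s‖ ^ 2 * ((D : ℝ) * (f : ℝ) ^ 2) ^ s.re) =
        ‖(un K : ℂ)⁻¹‖ ^ 2 * ‖∑ x ∈ P, ψ (b x.1 x.2) * B x‖ ^ 2 := by
          rw [← mul_pow ‖(un K : ℂ)⁻¹‖, ← norm_mul, ← key ψ hψ, norm_mul, norm_mul,
            norm_mul, mul_pow, mul_pow, mul_pow, hnD]
          ring
      _ ≤ 1 * ‖∑ x ∈ P, ψ (b x.1 x.2) * B x‖ ^ 2 :=
          mul_le_mul_of_nonneg_right hw (sq_nonneg _)
      _ = _ := one_mul _
  have hR0 : 0 ≤ 10 * (Nat.card G : ℝ) * ∑ c, ∑ V ∈ T c,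
      ‖Bm m s α N (fl f (R.Q c) V (W c V))‖ ^ 2 := by
    refine mul_nonneg (by positivity) ?_
    exact Finset.sum_nonneg fun c _ => Finset.sum_nonneg fun V _ => sq_nonneg _
  rcases Ψ.eq_empty_or_nonempty with hE | ⟨ψ₀, hψ₀⟩
  · subst hE
    rw [Finset.sum_empty]
    exact hR0
  -- the characters of the group
  have hch : ∀ ψ : Ideal (𝓞 K) → ℂ, ∃ φ : G →* ℂˣ, ψ ∈ Ψ → ∀ I, Pool.Agent.H95.CF.Pr K f I →
      ψ I = ψ₀ I * ((φ (cl I) : ℂˣ) : ℂ) := by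
    intro ψ
    by_cases hψ : ψ ∈ Ψ
    · obtain ⟨φ, hφ⟩ := hCHX K R.σ f m ψ₀ ψ G cl hRG (hΨ ψ₀ hψ₀).1 (hΨ ψ hψ).1
      exact ⟨φ, fun _ => hφ⟩
    · exact ⟨1, fun h => absurd h hψ⟩
  choose φ hφ using hch
  have hφinj : Set.InjOn φ Ψ := by
    intro ψ hψ ψ' hψ' h
    funext I
    by_cases hI : Pool.Agent.H95.CF.Pr K f I
    · rw [hφ ψ hψ I hI, hφ ψ' hψ' I hI, h]
    · rw [(hΨ ψ hψ).1.van I hI, (hΨ ψ' hψ').1.van I hI]
  have hV0 : ∀ x ∈ P, x.2 ≠ 0 := by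
    intro x hx h0
    have h1 := (hDF.lt x.1).one x.2 (Finset.mem_sigma.mp hx).2
    rw [h0] at h1
    simp [Pool.Agent.H89.FM.det] at h1
  have hUv : ∀ x ∈ P, Uv f (R.Q x.1) x.2 := fun x hx =>
    (hDF.lt x.1).un x.2 (Finset.mem_sigma.mp hx).2
  have hPr : ∀ x ∈ P, Pool.Agent.H95.CF.Pr K f (b x.1 x.2 : Ideal (𝓞 K)) := by
    intro x hx
    rw [hPRN K f _ (nonZeroDivisors.coe_ne_zero _)]
    have h1 := (hDF.vb x.1).nrm x.2 (hV0 x hx)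
    have h3 := hUv x hx
    unfold Uv at h3
    rw [← h1] at h3
    exact Nat.isCoprime_iff_coprime.mp h3
  set z : G → ℂ := fun g => ∑ x ∈ P with cl (b x.1 x.2) = g, ψ₀ (b x.1 x.2) * B x with hz
  have h3 : ∀ ψ ∈ Ψ, ∑ x ∈ P, ψ (b x.1 x.2) * B x =
      ∑ g, ((φ ψ g : ℂˣ) : ℂ) * z g := by
    intro ψ hψ
    rw [← Finset.sum_fiberwise P (fun x => cl (b x.1 x.2))]
    refine Finset.sum_congr rfl fun g _ => ?_
    rw [hz, Finset.mul_sum]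
    refine Finset.sum_congr rfl fun x hx => ?_
    have h4 := Finset.mem_filter.mp hx
    rw [hφ ψ hψ _ (hPr x h4.1), h4.2]
    ring
  have : Finite (G →* ℂˣ) := by
    have h5 := CommGroup.card_monoidHom_of_hasEnoughRootsOfUnity G ℂ
    apply Nat.finite_of_card_ne_zero
    rw [h5]
    exact Nat.card_pos.ne'
  have : Fintype (G →* ℂˣ) := Fintype.ofFinite _
  have h4 : ∑ ψ ∈ Ψ, ‖∑ g, ((φ ψ g : ℂˣ) : ℂ) * z g‖ ^ 2 ≤
      Fintype.card G * ∑ g, ‖z g‖ ^ 2 := by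
    rw [← hPVL G z, ← Finset.sum_image (f := fun χ : G →* ℂˣ =>
      ‖∑ g, ((χ g : ℂˣ) : ℂ) * z g‖ ^ 2) hφinj]
    refine (Finset.sum_le_sum_of_subset_of_nonneg (Finset.subset_univ _)
      fun _ _ _ => sq_nonneg _).trans (le_of_eq ?_)
    rw [← Equiv.sum_comp (Equiv.inv (G →* ℂˣ))]
    refine Finset.sum_congr rfl fun χ _ => ?_
    simp only [Equiv.inv_apply, MonoidHom.inv_apply]
  -- the number of the pairs with a given class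
  have hcard : ∀ g : G, ((P.filter fun x => cl (b x.1 x.2) = g).card : ℝ) ≤ 10 := by
    intro g
    rcases (P.filter fun x => cl (b x.1 x.2) = g).eq_empty_or_nonempty with hE | ⟨x₀, hx₀⟩
    · rw [hE]
      norm_num
    obtain ⟨hx₀P, hx₀g⟩ := Finset.mem_filter.mp hx₀
    have h5 : (P.filter fun x => cl (b x.1 x.2) = g) ⊆
        ((T x₀.1).filter (fun V' => UP (R.α x₀.1) (R.β x₀.1) f x₀.2 V')).image
          (fun V' => (⟨x₀.1, V'⟩ : Σ _ : ClassGroup (𝓞 K), ℤ × ℤ)) := by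
      intro x hx
      obtain ⟨hxP, hxg⟩ := Finset.mem_filter.mp hx
      obtain ⟨h6, h7⟩ := hFBR K D f hIQ hf R b hDF.vb G cl hRG x₀.1 x.1 x₀.2 x.2 (hV0 _ hx₀P)
        (hV0 _ hxP) (hUv _ hx₀P) (hUv _ hxP) (by rw [hx₀g, hxg])
      rw [Finset.mem_image]
      refine ⟨x.2, Finset.mem_filter.mpr ⟨?_, h7⟩, ?_⟩
      · rw [h6]
        exact (Finset.mem_sigma.mp hxP).2
      · rw [h6]
    have h8 := (Finset.card_le_card h5).trans Finset.card_image_le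
    have h9 := hCNT K R.σ D f (R.I x₀.1) (R.α x₀.1) (R.β x₀.1) (R.Q x₀.1) (b x₀.1) (T x₀.1)
      (W x₀.1) hIQ (R.ob x₀.1) (hDF.vb x₀.1) (hDF.lt x₀.1) x₀.2 (Finset.mem_sigma.mp hx₀P).2
    exact_mod_cast h8.trans h9
  have h5 : ∀ g : G, ‖z g‖ ^ 2 ≤ 10 * ∑ x ∈ P with cl (b x.1 x.2) = g, ‖B x‖ ^ 2 := by
    intro g
    have h6 : ‖z g‖ ≤ ∑ x ∈ P with cl (b x.1 x.2) = g, ‖B x‖ := by
      refine (norm_sum_le _ _).trans (Finset.sum_le_sum fun x hx => ?_)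
      rw [norm_mul, (hΨ ψ₀ hψ₀).1.abs _ (hPr x (Finset.mem_filter.mp hx).1), one_mul]
    calc ‖z g‖ ^ 2 ≤ (∑ x ∈ P with cl (b x.1 x.2) = g, ‖B x‖) ^ 2 :=
          pow_le_pow_left₀ (norm_nonneg _) h6 2
      _ ≤ ((P.filter fun x => cl (b x.1 x.2) = g).card : ℝ) *
          ∑ x ∈ P with cl (b x.1 x.2) = g, ‖B x‖ ^ 2 := sq_sum_le_card_mul_sum_sq
      _ ≤ _ := mul_le_mul_of_nonneg_right (hcard g) (Finset.sum_nonneg fun _ _ => sq_nonneg _)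
  calc ∑ ψ ∈ Ψ, ‖∑ n ∈ Sq N, α n * lc ψ n‖ ^ 2 * ‖F ψ s‖ ^ 2 *
        (‖gM m.natAbs s‖ ^ 2 * ((D : ℝ) * (f : ℝ) ^ 2) ^ s.re)
      ≤ ∑ ψ ∈ Ψ, ‖∑ g, ((φ ψ g : ℂˣ) : ℂ) * z g‖ ^ 2 := by
        refine Finset.sum_le_sum fun ψ hψ => ?_
        rw [← h3 ψ hψ]
        exact h2 ψ hψ
    _ ≤ Fintype.card G * ∑ g, ‖z g‖ ^ 2 := h4
    _ ≤ Fintype.card G * ∑ g, 10 * ∑ x ∈ P with cl (b x.1 x.2) = g, ‖B x‖ ^ 2 := by
        refine mul_le_mul_of_nonneg_left (Finset.sum_le_sum fun g _ => h5 g) (by positivity)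
    _ = 10 * Nat.card G * ∑ x ∈ P, ‖B x‖ ^ 2 := by
        rw [← Finset.mul_sum, Finset.sum_fiberwise P (fun x => cl (b x.1 x.2)),
          Nat.card_eq_fintype_card]
        ring
    _ = _ := by
        rw [hsig (fun c V => ‖Bm m s α N (fl f (R.Q c) V (W c V))‖ ^ 2)]

end Pool.Agent.H95.FC

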