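import Pool.Agent.H61.FM.Asm3
import Pool.Agent.H89.FM.Asm12
import Pool.Agent.H50.CN.ACT
import Pool.Agent.H37.CF.All
import Pool.Agent.H5.FC.AANT
import Pool.Agent.H48.FC.ACHX
import Pool.Agent.H41.FC.ACNT
import Pool.Agent.H68.FC.ADFX
import Pool.Agent.H48.FC.AEXL
import Pool.Agent.H35.FC.AFBR
import Pool.Agent.H95.FC.AFDU
import Pool.Agent.H95.FC.AFLF
import Pool.Agent.H95.FC.APAR
import Pool.Agent.H4.FC.AFRA
import Pool.Agent.H82.FC.AFRM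
import Pool.Agent.H48.FC.AGCB
import Pool.Agent.H40.FC.AGSU
import Pool.Agent.H86.FC.AHBD
import Pool.Agent.H10.FC.AHOM
import Pool.Agent.H39.FC.AIOS
import Pool.Agent.H14.FC.ALC1
import Pool.Agent.H19.FC.ALF1
import Pool.Agent.H85.FC.ALF2
import Pool.Agent.H32.FC.ALFK
import Pool.Agent.H41.FC.ALTX
import Pool.Agent.H27.FC.ANCU
import Pool.Agent.H10.FC.APRI
import Pool.Agent.H95.FC.APVF
import Pool.Agent.H27.FC.ARHO
import Pool.Agent.H85.FC.ARSS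
import Pool.Agent.H85.FC.ASPL
import Pool.Agent.H27.FC.ASUM
import Pool.Agent.H62.FC.ATCB
import Pool.Agent.H89.FC.ATMF
import Pool.Agent.H19.FC.ATNB
import Pool.Agent.H14.FC.ATRN
import Pool.Agent.H19.FC.ATWN
import Pool.Agent.H19.FC.ATWS
import Pool.Agent.H5.FC.AUNB
import Pool.Agent.H68.FC.AVAN
import Pool.Agent.H56.FC.AVNT

/-!
# The fourth moment of the complete family: assembly of the algebraic part
-/

set_option autoImplicit false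

open MeasureTheory Set Filter NumberField
open scoped Real nonZeroDivisors Matrix MatrixGroups

namespace Pool.Agent.H95.FC

open Pool.Agent.H31.CN Pool.Agent.H89.FM Pool.Agent.H61.FM Pool.Agent.H89.FC

/-- part A: from the twisted second moment over the classes of forms to the `L`-functions -/
theorem partA (hTM : Pool.Agent.H89.FC.T_TMm) (hEZA : T_EZAx) (hROT : T_ROTx) (hGML : T_GMLc) :
    T_TMFc ∧ T_LFKc ∧ T_EXLc ∧ T_HBDc := by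
  have hFLF : T_FLF := pf_FLF
  have hPAR : T_PAR := pf_PAR
  have hPRN : Pool.Agent.H95.CF.T_PRN := Pool.Agent.H56.CF.pf_PRN
  have hFLS := Pool.Agent.H89.FM.c_FLS
  have hGEN := Pool.Agent.H89.FM.c_GEN
  have hCRT := Pool.Agent.H89.FM.c_CRT
  have hACT : T_ACT := Pool.Agent.H50.CN.pf_ACT
  have hRGE := Pool.Agent.H37.CF.c_RGE
  have hQZV : Pool.Agent.H61.FM.T_QZV := Pool.Agent.H61.FM.a_QZV
  have hTRN : T_TRN := Pool.Agent.H14.FC.pf_TRN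
  have hLTX : T_LTX := Pool.Agent.H41.FC.pf_LTX hTRN
  have hTCB : T_TCB := Pool.Agent.H62.FC.pf_TCB
  have hFRA : T_FRA := Pool.Agent.H4.FC.pf_FRA hFLF
  have hFRM : T_FRM := Pool.Agent.H82.FC.pf_FRM hFLF hFRA
  have hIOS : T_IOS := Pool.Agent.H39.FC.pf_IOS hFLF hFRA
  have hTNB : T_TNB := Pool.Agent.H19.FC.pf_TNB hFLF hFLS hGEN
  have hTWN : T_TWN := Pool.Agent.H19.FC.pf_TWN hFLS hGEN hCRT
  have hVNT : T_VNT := Pool.Agent.H56.FC.pf_VNT hFLF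
  have hRSS : T_RSS := Pool.Agent.H85.FC.pf_RSS
  have hDFX : T_DFX := Pool.Agent.H68.FC.pf_DFX hLTX
  have hANT : T_ANT := Pool.Agent.H5.FC.pf_ANT
  have hRHO : T_RHO := Pool.Agent.H27.FC.pf_RHO hPAR hANT hFRA
  have hPRI : T_PRI := Pool.Agent.H10.FC.pf_PRI hTRN hANT hRHO hFRA hPRN
  have hNCU : T_NCU := Pool.Agent.H27.FC.pf_NCU hTRN hRHO hPRI
  have hSUM : T_SUM := Pool.Agent.H27.FC.pf_SUM hNCU hFRA hPRN
  have hVAN : T_VAN := Pool.Agent.H68.FC.pf_VAN hPRI hVNT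
  have hTWSc : T_TWSc := Pool.Agent.H19.FC.pf_TWSc
  have hLC1 : T_LC1 := Pool.Agent.H14.FC.pf_LC1 hFLS hPRN
  have hLF1 : T_LF1c := Pool.Agent.H19.FC.pf_LF1c hSUM hVAN hTWN hTNB hFRM hFRA hTWSc hLC1 hEZA
    Pool.Agent.H61.FM.a_LIN Pool.Agent.H61.FM.a_LSU hQZV hFLS hGEN hCRT
  have hLF2 : T_LF2c := Pool.Agent.H85.FC.pf_LF2c hLF1 hEZA hFLS hFRA
  have hHOM : T_HOM := Pool.Agent.H10.FC.pf_HOM hFLF hPRN
  have hFBR : T_FBR := Pool.Agent.H35.FC.pf_FBR hPRN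
  have hUNB : T_UNB := Pool.Agent.H5.FC.pf_UNB
  have hCNT : T_CNT := Pool.Agent.H41.FC.pf_CNT hTRN hUNB
  have hGSU : T_GSU := Pool.Agent.H40.FC.pf_GSU hPAR hPRN
  have hGCB : T_GCB := Pool.Agent.H48.FC.pf_GCB hGSU hTCB hRSS hDFX Pool.Agent.H61.FM.a_HBD
  have hCHX : T_CHX := Pool.Agent.H48.FC.pf_CHX
  have hPVF : T_PVFc := pf_PVFc hLF2 Pool.Agent.H61.FM.a_PVL hCHX hFBR hCNT hPRN
  have hSPL : T_SPL := Pool.Agent.H85.FC.pf_SPL
  exact ⟨Pool.Agent.H89.FC.pf_TMFc hTM hPVF hGCB hGML hHOM hCNT pf_FDU hACT hSPL hRSS hDFX hRGE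
      hFLF,
    Pool.Agent.H32.FC.pf_LFKc hLF2 hRSS hDFX hROT hSUM hTWSc hIOS hFRA hFLF hQZV hLC1,
    Pool.Agent.H48.FC.pf_EXLc hRSS hDFX hEZA hSUM hTWSc hIOS hFRA hFLF hQZV hLC1,
    Pool.Agent.H86.FC.pf_HBDc hGCB hCHX hRGE⟩

end Pool.Agent.H95.FC

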